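import Pool.Agent.Y34.EX.Main

set_option autoImplicit false
set_option linter.unusedSectionVars false

/-!
# The members of the family which are exponential
-/

namespace Pool.Agent.Y34.EX

open Polynomial
open Pool.Agent.Results.MP_038775_ag.NotExponential (GaAction IsExponential hom_injective
  hom_leadingCoeff hom_eq_C_of_natDegree natDegree_mul_zero hom_comm F F_ne_zero)

section

variable (p : ℕ) [hp : Fact p.Prime] (k : Type*) [Field k] [CharP k p] {σ : Type*} [DecidableEq σ]
  {x y z : σ}

/-- images of the variables: `x ↦ x + α T + β T ^ p`, `y ↦ y + γ T`, with `α, β, γ` in `k[z]` -/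
noncomputable def ga (x y z : σ) (α β γ : k[X]) (i : σ) : (MvPolynomial σ k)[X] :=
  if i = x then C (MvPolynomial.X x) + C (chi k z α) * X + C (chi k z β) * X ^ p
  else if i = y then C (MvPolynomial.X y) + C (chi k z γ) * X
  else C (MvPolynomial.X i)

/-- the algebra homomorphism -/
noncomputable def gh (x y z : σ) (α β γ : k[X]) :
    MvPolynomial σ k →ₐ[k] (MvPolynomial σ k)[X] :=
  MvPolynomial.aeval (ga p k x y z α β γ)

lemma gh_x (α β γ : k[X]) : gh p k x y z α β γ (MvPolynomial.X x) =
    C (MvPolynomial.X x) + C (chi k z α) * X + C (chi k z β) * X ^ p := by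
  simp [gh, ga]

lemma gh_y (hxy : x ≠ y) (α β γ : k[X]) : gh p k x y z α β γ (MvPolynomial.X y) =
    C (MvPolynomial.X y) + C (chi k z γ) * X := by
  simp [gh, ga, hxy.symm]

lemma gh_other {i : σ} (hx : i ≠ x) (hy : i ≠ y) (α β γ : k[X]) :
    gh p k x y z α β γ (MvPolynomial.X i) = C (MvPolynomial.X i) := by
  simp [gh, ga, hx, hy]

lemma gh_C (α β γ : k[X]) (r : k) :
    gh p k x y z α β γ (MvPolynomial.C r) = C (MvPolynomial.C r) := by
  rw [← MvPolynomial.algebraMap_eq, AlgHom.commutes]
  rfl

lemma gh_chi (hxz : x ≠ z) (hyz : y ≠ z) (α β γ q : k[X]) :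
    gh p k x y z α β γ (chi k z q) = C (chi k z q) := by
  have h' : ((gh p k x y z α β γ : MvPolynomial σ k →+* (MvPolynomial σ k)[X]).comp (chi k z)) =
      C.comp (chi k z) := by
    apply Polynomial.ringHom_ext
    · intro b
      simp only [chi, RingHom.comp_apply, coe_eval₂RingHom, eval₂_C, RingHom.coe_coe]
      exact gh_C p k α β γ b
    · simp only [chi, RingHom.comp_apply, coe_eval₂RingHom, eval₂_X, RingHom.coe_coe]
      exact gh_other p k hxz.symm hyz.symm α β γ
  exact congrArg (fun f : k[X] →+* (MvPolynomial σ k)[X] => f q) h'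

lemma gh_coeff (α β γ : k[X]) (b : MvPolynomial σ k) :
    (gh p k x y z α β γ b).coeff 0 = b := by
  have h : ((evalRingHom (0 : MvPolynomial σ k)).comp
      (gh p k x y z α β γ : MvPolynomial σ k →+* (MvPolynomial σ k)[X])) = RingHom.id _ := by
    apply MvPolynomial.ringHom_ext
    · intro r
      simp only [RingHom.comp_apply, RingHom.coe_coe, gh_C, coe_evalRingHom, eval_C,
        RingHom.id_apply]
    · intro i
      simp only [RingHom.comp_apply, RingHom.coe_coe, coe_evalRingHom, RingHom.id_apply]
      have hp0 : p ≠ 0 := hp.out.ne_zero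
      by_cases hx : i = x
      · subst hx; rw [gh_x]; simp [hp0]
      · by_cases hy : i = y
        · subst hy; rw [gh_y p k (fun h => hx h.symm)]; simp
        · rw [gh_other p k hx hy]; simp
  have h1 := congrArg (fun f : MvPolynomial σ k →+* MvPolynomial σ k => f b) h
  simp only [RingHom.comp_apply, RingHom.coe_coe, coe_evalRingHom, RingHom.id_apply] at h1
  rw [coeff_zero_eq_eval_zero]
  exact h1

lemma gh_add (hxy : x ≠ y) (hxz : x ≠ z) (hyz : y ≠ z) (α β γ : k[X]) (b : MvPolynomial σ k) :
    (gh p k x y z α β γ b).map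
        (gh p k x y z α β γ : MvPolynomial σ k →+* (MvPolynomial σ k)[X]) =
      ((gh p k x y z α β γ b).map (C : MvPolynomial σ k →+* (MvPolynomial σ k)[X])).comp
        (X + C X) := by
  have hchar : CharP (MvPolynomial σ k)[X][X] p := inferInstance
  have h : ((mapRingHom (gh p k x y z α β γ : MvPolynomial σ k →+* (MvPolynomial σ k)[X])).comp
        (gh p k x y z α β γ : MvPolynomial σ k →+* (MvPolynomial σ k)[X])) =
      (compRingHom (X + C X)).comp ((mapRingHom C).comp
        (gh p k x y z α β γ : MvPolynomial σ k →+* (MvPolynomial σ k)[X])) := by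
    apply MvPolynomial.ringHom_ext
    · intro r
      simp only [RingHom.comp_apply, RingHom.coe_coe, gh_C, coe_mapRingHom, map_C,
        coe_compRingHom_apply, C_comp]
    · intro i
      simp only [RingHom.comp_apply, RingHom.coe_coe, coe_mapRingHom, coe_compRingHom_apply]
      by_cases hx : i = x
      · subst hx
        rw [gh_x]
        simp only [Polynomial.map_add, Polynomial.map_mul, Polynomial.map_pow, map_C, map_X,
          RingHom.coe_coe, gh_chi p k hxz hyz, gh_x, add_comp, mul_comp, pow_comp, C_comp, X_comp,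
          add_pow_char, ← C_pow, C_add, C_mul]
        ring
      · by_cases hy : i = y
        · subst hy
          rw [gh_y p k hxy]
          simp only [Polynomial.map_add, Polynomial.map_mul, map_C, map_X,
            RingHom.coe_coe, gh_chi p k hxz hyz, gh_y p k hxy, add_comp, mul_comp, C_comp, X_comp,
            C_add, C_mul]
          ring
        · rw [gh_other p k hx hy]
          simp only [map_C, RingHom.coe_coe, gh_other p k hx hy, C_comp]
  exact congrArg (fun f : MvPolynomial σ k →+* (MvPolynomial σ k)[X][X] => f b) h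

/-- The `G_a`-action. -/
noncomputable def gact (hxy : x ≠ y) (hxz : x ≠ z) (hyz : y ≠ z) (α β γ : k[X]) :
    GaAction k (MvPolynomial σ k) where
  hom := gh p k x y z α β γ
  coeff_zero := gh_coeff p k α β γ
  add_law := by
    intro b
    have h := gh_add p k hxy hxz hyz α β γ b
    have h1 : (gh p k x y z α β γ b).map
        (gh p k x y z α β γ : MvPolynomial σ k →+* (MvPolynomial σ k)[X]) =
        (gh p k x y z α β γ b).sum fun i c => C (gh p k x y z α β γ c) * X ^ i := by
      rw [Polynomial.map, eval₂_eq_sum]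
      rfl
    have h2 : ((gh p k x y z α β γ b).map
        (C : MvPolynomial σ k →+* (MvPolynomial σ k)[X])).comp (X + C X) =
        (gh p k x y z α β γ b).sum fun i c => C (C c) * (C X + X) ^ i := by
      rw [Polynomial.comp, eval₂_map, eval₂_eq_sum]
      simp only [RingHom.comp_apply, add_comm]
    rw [← h1, ← h2]
    exact h

lemma exp_of (hxy : x ≠ y) (hxz : x ≠ z) (hyz : y ≠ z) (α β γ : k[X]) (a : MvPolynomial σ k)
    (ha : gh p k x y z α β γ a = C a) (c : ZMod p) (Q : k[X][X])
    (hW : W p k x y z Q = chi k z α * a + chi k z β * a ^ p)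
    (hP : P p k x y z c Q = chi k z γ * a) :
    IsExponential (phi p k hxy hxz hyz c Q) := by
  refine ⟨gact p k hxy hxz hyz α β γ, a, ha, ?_⟩
  have h : (Phi p k x y z c Q : MvPolynomial σ k →+* MvPolynomial σ k) =
      (evalRingHom a).comp
        (gh p k x y z α β γ : MvPolynomial σ k →+* (MvPolynomial σ k)[X]) := by
    apply MvPolynomial.ringHom_ext
    · intro r
      simp only [RingHom.comp_apply, RingHom.coe_coe, gh_C, coe_evalRingHom, eval_C]
      simp [Phi]
    · intro i
      simp only [RingHom.comp_apply, RingHom.coe_coe, coe_evalRingHom]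
      by_cases hx : i = x
      · subst hx; rw [gh_x, Phi_x, hW]; simp; ring
      · by_cases hy : i = y
        · subst hy; rw [gh_y p k hxy, Phi_y p k hxy, hP]; simp
        · rw [gh_other p k hx hy, Phi_other p k hx hy]; simp
  intro b
  exact congrArg (fun f : MvPolynomial σ k →+* MvPolynomial σ k => f b) h

/-- For `c = 0` the automorphism is exponential. -/
theorem exponential_zero (hxy : x ≠ y) (hxz : x ≠ z) (hyz : y ≠ z) (Q : k[X][X]) :
    IsExponential (phi p k hxy hxz hyz 0 Q) := by
  have hX : chi k z X = MvPolynomial.X z := by simp [chi]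
  refine exp_of p k hxy hxz hyz 1 (-X ^ (p - 1)) X (psi p k x y z Q) ?_ 0 Q ?_ ?_
  · refine fix_psi p k (gh p k x y z 1 (-X ^ (p - 1)) X)
      (Algebra.ofId _ _ |>.restrictScalars k : MvPolynomial σ k →ₐ[k] (MvPolynomial σ k)[X]) ?_ ?_ Q
    · exact gh_other p k hxz.symm hyz.symm _ _ _
    · have h1 : (C (MvPolynomial.X z) : (MvPolynomial σ k)[X]) * C (MvPolynomial.X z) ^ (p - 1) =
          C (MvPolynomial.X z) ^ p := mul_pow_sub_one hp.out.ne_zero _
      have hchar : CharP (MvPolynomial σ k)[X] p := inferInstance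
      rw [F, map_sub, map_add, map_mul, map_pow, gh_x, gh_y p k hxy,
        gh_other p k hxz.symm hyz.symm, add_pow_char, mul_pow]
      change _ = C (MvPolynomial.X z * MvPolynomial.X x + MvPolynomial.X y ^ p - MvPolynomial.X y)
      simp only [map_neg, map_pow, hX, map_one, C_neg, C_pow, C_add, C_mul, C_sub, C_1]
      linear_combination (-X ^ p : (MvPolynomial σ k)[X]) * h1
  · rw [W, map_one, map_neg, map_pow, hX]; ring
  · rw [P, hX, map_zero, map_zero, zero_add]

/-- If `Q` does not involve `F` then the automorphism is exponential. -/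
theorem exponential_const (hxy : x ≠ y) (hxz : x ≠ z) (hyz : y ≠ z) (c : ZMod p) {Q : k[X][X]}
    (hQ : Q.natDegree = 0) : IsExponential (phi p k hxy hxz hyz c Q) := by
  obtain ⟨q, rfl⟩ : ∃ q : k[X], Q = C q := ⟨_, eq_C_of_natDegree_eq_zero hQ⟩
  have hX : chi k z X = MvPolynomial.X z := by simp [chi]
  have hψ : psi p k x y z (C q) = chi k z q := by simp [psi]
  have hC : chi k z (C (io p k c)) = MvPolynomial.C (io p k c) := by simp [chi]
  refine exp_of p k hxy hxz hyz (q - X ^ (p - 1) * q ^ p) 0 (C (io p k c) + X * q) 1 ?_ c (C q)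
    ?_ ?_
  · rw [map_one, C_1]
  · rw [W, hψ, map_sub, map_mul, map_pow, map_pow, hX, map_zero]; ring
  · rw [P, hψ, map_add, map_mul, hX, hC, mul_one]

end

end Pool.Agent.Y34.EX
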