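import Mathlib
import Pool.Agent.Results.MP_038775_ag.NotExponential

set_option autoImplicit false
set_option linter.unusedSectionVars false

/-!
# An infinite elementary abelian group of automorphisms of order `p`
-/

namespace Pool.Agent.Y34.EX

open Polynomial
open Pool.Agent.Results.MP_038775_ag.NotExponential (GaAction IsExponential hom_injective
  hom_leadingCoeff hom_eq_C_of_natDegree natDegree_mul_zero hom_comm F F_ne_zero)

section

variable (p : ℕ) [hp : Fact p.Prime] (k : Type*) [Field k] [CharP k p] {σ : Type*} [DecidableEq σ]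
  (x y z : σ)

/-- `ZMod p` inside `k`. -/
noncomputable def io : ZMod p →+* k := ZMod.castHom (dvd_refl p) k

/-- The homomorphism `q ↦ q(z)`. -/
noncomputable def chi : k[X] →+* MvPolynomial σ k :=
  eval₂RingHom MvPolynomial.C (MvPolynomial.X z)

/-- The homomorphism `Q ↦ Q(z, F)`. -/
noncomputable def psi : k[X][X] →+* MvPolynomial σ k :=
  eval₂RingHom (chi k z) (F p k x y z)

/-- `P = c + z Q(z, F)`. -/
noncomputable def P (c : ZMod p) (Q : k[X][X]) : MvPolynomial σ k :=
  MvPolynomial.C (io p k c) + MvPolynomial.X z * psi p k x y z Q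

/-- `W = Q(z, F) - z ^ (p - 1) Q(z, F) ^ p`. -/
noncomputable def W (Q : k[X][X]) : MvPolynomial σ k :=
  psi p k x y z Q - MvPolynomial.X z ^ (p - 1) * psi p k x y z Q ^ p

/-- images of the variables -/
noncomputable def g (c : ZMod p) (Q : k[X][X]) (i : σ) : MvPolynomial σ k :=
  if i = x then MvPolynomial.X x + W p k x y z Q
  else if i = y then MvPolynomial.X y + P p k x y z c Q
  else MvPolynomial.X i

/-- the endomorphism `x ↦ x + W`, `y ↦ y + P` -/
noncomputable def Phi (c : ZMod p) (Q : k[X][X]) : MvPolynomial σ k →ₐ[k] MvPolynomial σ k :=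
  MvPolynomial.aeval (g p k x y z c Q)

variable {x y z}

lemma Phi_x (c : ZMod p) (Q : k[X][X]) : Phi p k x y z c Q (MvPolynomial.X x) =
    MvPolynomial.X x + W p k x y z Q := by
  simp [Phi, g]

lemma Phi_y (hxy : x ≠ y) (c : ZMod p) (Q : k[X][X]) : Phi p k x y z c Q (MvPolynomial.X y) =
    MvPolynomial.X y + P p k x y z c Q := by
  simp [Phi, g, hxy.symm]

lemma Phi_other {i : σ} (hx : i ≠ x) (hy : i ≠ y) (c : ZMod p) (Q : k[X][X]) :
    Phi p k x y z c Q (MvPolynomial.X i) = MvPolynomial.X i := by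
  simp [Phi, g, hx, hy]

lemma io_pow (c : ZMod p) : (MvPolynomial.C (io p k c) : MvPolynomial σ k) ^ p =
    MvPolynomial.C (io p k c) := by
  rw [← map_pow, ← map_pow, ZMod.pow_card]

lemma zW (c : ZMod p) (Q : k[X][X]) :
    MvPolynomial.X z * W p k x y z Q + P p k x y z c Q ^ p - P p k x y z c Q = 0 := by
  have h1 : (MvPolynomial.X z : MvPolynomial σ k) ^ (p - 1) * MvPolynomial.X z =
      MvPolynomial.X z ^ p := pow_sub_one_mul hp.out.ne_zero _
  have h2 : MvPolynomial.X z * W p k x y z Q = MvPolynomial.X z * psi p k x y z Q -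
      (MvPolynomial.X z * psi p k x y z Q) ^ p := by
    rw [mul_pow, ← h1, W]; ring
  rw [h2, P, add_pow_char, io_pow]
  ring

lemma Phi_F (hxy : x ≠ y) (hxz : x ≠ z) (hyz : y ≠ z) (c : ZMod p) (Q : k[X][X]) :
    Phi p k x y z c Q (F p k x y z) = F p k x y z := by
  have h0 := zW p k (x := x) (y := y) (z := z) c Q
  conv_lhs => rw [F]
  rw [map_sub, map_add, map_mul, map_pow, Phi_x, Phi_y p k hxy,
    Phi_other p k hxz.symm hyz.symm, add_pow_char]
  conv_rhs => rw [F]
  linear_combination h0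

/-- A `k`-algebra homomorphism fixing `z` and `F` fixes `Q(z, F)`. -/
lemma fix_psi {B : Type*} [CommRing B] [Algebra k B] (α β : MvPolynomial σ k →ₐ[k] B)
    (hz : α (MvPolynomial.X z) = β (MvPolynomial.X z))
    (hF : α (F p k x y z) = β (F p k x y z)) (Q : k[X][X]) :
    α (psi p k x y z Q) = β (psi p k x y z Q) := by
  have h : ((α : MvPolynomial σ k →+* B).comp (psi p k x y z)) =
      ((β : MvPolynomial σ k →+* B).comp (psi p k x y z)) := by
    apply Polynomial.ringHom_ext
    · intro a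
      simp only [psi, RingHom.comp_apply, coe_eval₂RingHom, eval₂_C, RingHom.coe_coe]
      have h' : ((α : MvPolynomial σ k →+* B).comp (chi k z)) =
          ((β : MvPolynomial σ k →+* B).comp (chi k z)) := by
        apply Polynomial.ringHom_ext
        · intro b
          simp only [chi, RingHom.comp_apply, coe_eval₂RingHom, eval₂_C, RingHom.coe_coe]
          rw [← MvPolynomial.algebraMap_eq, α.commutes, β.commutes]
        · simp only [chi, RingHom.comp_apply, coe_eval₂RingHom, eval₂_X, RingHom.coe_coe]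
          exact hz
      exact congrArg (fun f : k[X] →+* B => f a) h'
    · simp only [psi, RingHom.comp_apply, coe_eval₂RingHom, eval₂_X, RingHom.coe_coe]
      exact hF
  exact congrArg (fun f : k[X][X] →+* B => f Q) h

lemma Phi_psi (hxy : x ≠ y) (hxz : x ≠ z) (hyz : y ≠ z) (c : ZMod p) (Q Q' : k[X][X]) :
    Phi p k x y z c Q (psi p k x y z Q') = psi p k x y z Q' :=
  fix_psi p k (Phi p k x y z c Q) (AlgHom.id k _) (Phi_other p k hxz.symm hyz.symm c Q)
    (Phi_F p k hxy hxz hyz c Q) Q'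

lemma Phi_P (hxy : x ≠ y) (hxz : x ≠ z) (hyz : y ≠ z) (c c' : ZMod p) (Q Q' : k[X][X]) :
    Phi p k x y z c Q (P p k x y z c' Q') = P p k x y z c' Q' := by
  rw [P, map_add, map_mul, Phi_psi p k hxy hxz hyz, Phi_other p k hxz.symm hyz.symm]
  simp [Phi]

lemma Phi_W (hxy : x ≠ y) (hxz : x ≠ z) (hyz : y ≠ z) (c : ZMod p) (Q Q' : k[X][X]) :
    Phi p k x y z c Q (W p k x y z Q') = W p k x y z Q' := by
  rw [W, map_sub, map_mul, map_pow, map_pow, Phi_psi p k hxy hxz hyz,
    Phi_other p k hxz.symm hyz.symm]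

lemma P_add (c c' : ZMod p) (Q Q' : k[X][X]) :
    P p k x y z (c + c') (Q + Q') = P p k x y z c Q + P p k x y z c' Q' := by
  simp only [P, map_add]; ring

lemma W_add (Q Q' : k[X][X]) :
    W p k x y z (Q + Q') = W p k x y z Q + W p k x y z Q' := by
  simp only [W, map_add, add_pow_char]; ring

lemma Phi_comp (hxy : x ≠ y) (hxz : x ≠ z) (hyz : y ≠ z) (c c' : ZMod p) (Q Q' : k[X][X]) :
    (Phi p k x y z c Q).comp (Phi p k x y z c' Q') = Phi p k x y z (c + c') (Q + Q') := by
  apply MvPolynomial.algHom_ext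
  intro i
  rw [AlgHom.comp_apply]
  by_cases hx : i = x
  · subst hx
    rw [Phi_x, map_add, Phi_x, Phi_W p k hxy hxz hyz, Phi_x, W_add]; ring
  · by_cases hy : i = y
    · subst hy
      rw [Phi_y p k hxy, map_add, Phi_y p k hxy, Phi_P p k hxy hxz hyz, Phi_y p k hxy, P_add]; ring
    · rw [Phi_other p k hx hy, Phi_other p k hx hy, Phi_other p k hx hy]

lemma Phi_zero : Phi p k x y z 0 0 = AlgHom.id k (MvPolynomial σ k) := by
  have hW : W p k x y z 0 = 0 := by simp [W, hp.out.ne_zero]
  have hP : P p k x y z 0 0 = 0 := by simp [P]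
  apply MvPolynomial.algHom_ext
  intro i
  by_cases hx : i = x
  · subst hx; rw [Phi_x, hW]; simp
  · by_cases hy : i = y
    · subst hy; simp [Phi, g, hP, hx]
    · rw [Phi_other p k hx hy]; simp

/-- The automorphism `x ↦ x + W`, `y ↦ y + P`. -/
noncomputable def phi (hxy : x ≠ y) (hxz : x ≠ z) (hyz : y ≠ z) (c : ZMod p) (Q : k[X][X]) :
    MvPolynomial σ k ≃ₐ[k] MvPolynomial σ k :=
  AlgEquiv.ofAlgHom (Phi p k x y z c Q) (Phi p k x y z (-c) (-Q))
    (by rw [Phi_comp p k hxy hxz hyz, add_neg_cancel, add_neg_cancel]; exact Phi_zero p k)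
    (by rw [Phi_comp p k hxy hxz hyz, neg_add_cancel, neg_add_cancel]; exact Phi_zero p k)

/-- The homomorphism from the elementary abelian group `ZMod p × k[X][X]`. -/
noncomputable def Theta (hxy : x ≠ y) (hxz : x ≠ z) (hyz : y ≠ z) :
    Multiplicative (ZMod p × k[X][X]) →* (MvPolynomial σ k ≃ₐ[k] MvPolynomial σ k) where
  toFun a := phi p k hxy hxz hyz a.toAdd.1 a.toAdd.2
  map_one' := by
    apply AlgEquiv.ext
    intro b
    have := congrArg (fun f : MvPolynomial σ k →ₐ[k] MvPolynomial σ k => f b)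
      (Phi_zero p k (x := x) (y := y) (z := z))
    exact this
  map_mul' a b := by
    apply AlgEquiv.ext
    intro c
    have := congrArg (fun f : MvPolynomial σ k →ₐ[k] MvPolynomial σ k => f c)
      (Phi_comp p k hxy hxz hyz a.toAdd.1 b.toAdd.1 a.toAdd.2 b.toAdd.2)
    exact this.symm

/-- The specialisation `z ↦ inner variable`, `y ↦ outer variable`, `x ↦ 0`. -/
noncomputable def sp (y z : σ) : MvPolynomial σ k →ₐ[k] k[X][X] :=
  MvPolynomial.aeval fun i => if i = z then (C X : k[X][X]) else if i = y then X else 0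

lemma sp_psi (hxy : x ≠ y) (hxz : x ≠ z) (hyz : y ≠ z) (Q : k[X][X]) :
    sp k y z (psi p k x y z Q) = Q.comp (X ^ p - X) := by
  have h : ((sp k y z : MvPolynomial σ k →+* k[X][X]).comp (psi p k x y z)) =
      (compRingHom (X ^ p - X : k[X][X])) := by
    apply Polynomial.ringHom_ext
    · intro a
      simp only [psi, RingHom.comp_apply, coe_eval₂RingHom, eval₂_C, RingHom.coe_coe,
        coe_compRingHom_apply, C_comp]
      have h' : ((sp k y z : MvPolynomial σ k →+* k[X][X]).comp (chi k z)) = C := by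
        apply Polynomial.ringHom_ext
        · intro b
          simp only [chi, RingHom.comp_apply, coe_eval₂RingHom, eval₂_C, RingHom.coe_coe]
          rw [← MvPolynomial.algebraMap_eq, AlgHom.commutes]
          rfl
        · simp only [chi, RingHom.comp_apply, coe_eval₂RingHom, eval₂_X, RingHom.coe_coe]
          simp [sp]
      exact congrArg (fun f : k[X] →+* k[X][X] => f a) h'
    · simp only [psi, RingHom.comp_apply, coe_eval₂RingHom, eval₂_X, RingHom.coe_coe,
        coe_compRingHom_apply, X_comp]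
      simp [sp, F, hxy, hxz, hyz]
  exact congrArg (fun f : k[X][X] →+* k[X][X] => f Q) h

lemma psi_inj (hxy : x ≠ y) (hxz : x ≠ z) (hyz : y ≠ z) {Q : k[X][X]}
    (h : psi p k x y z Q = 0) : Q = 0 := by
  have h1 := sp_psi p k hxy hxz hyz Q
  rw [h, map_zero] at h1
  rcases comp_eq_zero_iff.1 h1.symm with h2 | ⟨-, h2⟩
  · exact h2
  · exfalso
    obtain ⟨a, ha⟩ : ∃ a : k[X], (X ^ p - X : k[X][X]) = C a := ⟨_, h2⟩
    have h3 := congrArg (fun q : k[X][X] => q.coeff 1) ha
    have hp1 : p ≠ 1 := hp.out.one_lt.ne'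
    simp [coeff_X_pow, coeff_C, hp1.symm] at h3

/-- The reduction modulo `z`. -/
noncomputable def red (z : σ) : MvPolynomial σ k →ₐ[k] MvPolynomial σ k :=
  MvPolynomial.aeval fun i => if i = z then 0 else MvPolynomial.X i

lemma red_P (c : ZMod p) (Q : k[X][X]) :
    red k z (P p k x y z c Q) = MvPolynomial.C (io p k c) := by
  simp [red, P]

lemma io_inj {c : ZMod p} (h : (MvPolynomial.C (io p k c) : MvPolynomial σ k) = 0) : c = 0 := by
  have h1 : io p k c = 0 := by
    rw [← MvPolynomial.C_0] at h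
    exact MvPolynomial.C_injective _ _ h
  exact (io p k).injective (by rw [h1, map_zero])

lemma P_inj (hxy : x ≠ y) (hxz : x ≠ z) (hyz : y ≠ z) {c : ZMod p} {Q : k[X][X]}
    (h : P p k x y z c Q = 0) : c = 0 ∧ Q = 0 := by
  have h1 := red_P p k (x := x) (y := y) (z := z) c Q
  rw [h, map_zero] at h1
  have hc := io_inj p k h1.symm
  refine ⟨hc, psi_inj p k hxy hxz hyz ?_⟩
  rw [P, hc, map_zero, map_zero, zero_add] at h
  exact (mul_eq_zero.1 h).resolve_left (MvPolynomial.X_ne_zero z)

theorem Theta_injective (hxy : x ≠ y) (hxz : x ≠ z) (hyz : y ≠ z) :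
    Function.Injective (Theta p k hxy hxz hyz) := by
  rw [injective_iff_map_eq_one]
  intro a ha
  have h1 : Phi p k x y z a.toAdd.1 a.toAdd.2 (MvPolynomial.X y) = MvPolynomial.X y :=
    congrArg (fun f : MvPolynomial σ k ≃ₐ[k] MvPolynomial σ k => f (MvPolynomial.X y)) ha
  rw [Phi_y p k hxy] at h1
  have h2 : P p k x y z a.toAdd.1 a.toAdd.2 = 0 := by simpa using h1
  obtain ⟨h3, h4⟩ := P_inj p k hxy hxz hyz h2
  have : a.toAdd = 0 := Prod.ext h3 h4
  exact this

end

end Pool.Agent.Y34.EX
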