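import Pool.Agent.Y34.EX.Main

set_option autoImplicit false
set_option linter.unusedSectionVars false

/-!
# The members of the family which are not exponential
-/

namespace Pool.Agent.Y34.EX

open Polynomial
open Pool.Agent.Results.MP_038775_ag.NotExponential (GaAction IsExponential hom_injective
  hom_leadingCoeff hom_eq_C_of_natDegree natDegree_mul_zero hom_comm F F_ne_zero)

section

variable (p : ℕ) [hp : Fact p.Prime] (k : Type*) [Field k] [CharP k p] {σ : Type*} [DecidableEq σ]
  {x y z : σ}

lemma P_dvd_W {c : ZMod p} (hc : c ≠ 0) (Q : k[X][X]) :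
    P p k x y z c Q ∣ W p k x y z Q := by
  have h0 : W p k x y z Q =
      psi p k x y z Q * (1 - (MvPolynomial.X z * psi p k x y z Q) ^ (p - 1)) := by
    have h1 : psi p k x y z Q ^ (p - 1) * psi p k x y z Q =
      psi p k x y z Q ^ p := pow_sub_one_mul hp.out.ne_zero _
    rw [W, mul_pow, ← h1]; ring
  rw [h0]
  apply Dvd.dvd.mul_left
  have h := sub_dvd_pow_sub_pow (MvPolynomial.X z * psi p k x y z Q)
    (MvPolynomial.C (io p k (-c)) : MvPolynomial σ k) (p - 1)
  have h1 : (MvPolynomial.C (io p k (-c)) : MvPolynomial σ k) ^ (p - 1) = 1 := by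
    rw [← map_pow, ← map_pow, ZMod.pow_card_sub_one_eq_one (neg_ne_zero.2 hc), map_one, map_one]
  rw [h1] at h
  have h2 : MvPolynomial.X z * psi p k x y z Q - (MvPolynomial.C (io p k (-c)) : MvPolynomial σ k) =
      P p k x y z c Q := by
    rw [P, map_neg, map_neg]; ring
  rw [h2] at h
  have h3 := h.neg_right
  rwa [neg_sub] at h3

lemma P_dvd (hxy : x ≠ y) {c : ZMod p} (hc : c ≠ 0) (Q : k[X][X]) (b : MvPolynomial σ k) :
    P p k x y z c Q ∣ Phi p k x y z c Q b - b := by
  induction b using MvPolynomial.induction_on with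
  | C a =>
    have : Phi p k x y z c Q (MvPolynomial.C a) = MvPolynomial.C a := by
      simp [Phi]
    rw [this, sub_self]; exact dvd_zero _
  | add b c hb hc =>
    rw [map_add]
    have := dvd_add hb hc
    convert this using 1; ring
  | mul_X b i hb =>
    have hi : P p k x y z c Q ∣ Phi p k x y z c Q (MvPolynomial.X i) - MvPolynomial.X i := by
      by_cases hx : i = x
      · subst hx; rw [Phi_x]; simpa using P_dvd_W p k hc Q
      · by_cases hy : i = y
        · subst hy; rw [Phi_y p k hxy]; simp
        · rw [Phi_other p k hx hy, sub_self]; exact dvd_zero _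
    rw [map_mul]
    have h3 : Phi p k x y z c Q b * Phi p k x y z c Q (MvPolynomial.X i) - b * MvPolynomial.X i =
        (Phi p k x y z c Q b - b) * Phi p k x y z c Q (MvPolynomial.X i) +
          b * (Phi p k x y z c Q (MvPolynomial.X i) - MvPolynomial.X i) := by ring
    rw [h3]
    exact dvd_add (hb.mul_right _) (hi.mul_left _)

/-- The value of an action at `Q(z, F)` if `z` is invariant. -/
lemma hom_psi (ε : GaAction k (MvPolynomial σ k))
    (hz : ε.hom (MvPolynomial.X z) = C (MvPolynomial.X z)) (Q : k[X][X]) :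
    ε.hom (psi p k x y z Q) = (Q.map (chi k z)).comp (ε.hom (F p k x y z)) := by
  have h : ((ε.hom : MvPolynomial σ k →+* (MvPolynomial σ k)[X]).comp (psi p k x y z)) =
      (compRingHom (ε.hom (F p k x y z))).comp (mapRingHom (chi k z)) := by
    apply Polynomial.ringHom_ext
    · intro a
      simp only [psi, RingHom.comp_apply, coe_eval₂RingHom, eval₂_C, RingHom.coe_coe,
        coe_compRingHom_apply, coe_mapRingHom, map_C, C_comp]
      have h' : ((ε.hom : MvPolynomial σ k →+* (MvPolynomial σ k)[X]).comp (chi k z)) =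
          C.comp (chi k z) := by
        apply Polynomial.ringHom_ext
        · intro b
          simp only [chi, RingHom.comp_apply, coe_eval₂RingHom, eval₂_C, RingHom.coe_coe]
          rw [← MvPolynomial.algebraMap_eq, AlgHom.commutes]
          rfl
        · simp only [chi, RingHom.comp_apply, coe_eval₂RingHom, eval₂_X, RingHom.coe_coe]
          exact hz
      exact congrArg (fun f : k[X] →+* (MvPolynomial σ k)[X] => f a) h'
    · simp only [psi, RingHom.comp_apply, coe_eval₂RingHom, eval₂_X, RingHom.coe_coe,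
        coe_compRingHom_apply, coe_mapRingHom, map_X, X_comp]
  exact congrArg (fun f : k[X][X] →+* (MvPolynomial σ k)[X] => f Q) h

lemma chi_inj (z : σ) : Function.Injective (chi k z) := by
  rw [injective_iff_map_eq_zero]
  intro q hq
  have h : ((MvPolynomial.aeval (fun _ : σ => (X : k[X])) : MvPolynomial σ k →ₐ[k] k[X]) :
      MvPolynomial σ k →+* k[X]).comp (chi k z) = RingHom.id _ := by
    apply Polynomial.ringHom_ext
    · intro b
      simp only [chi, RingHom.comp_apply, coe_eval₂RingHom, eval₂_C, RingHom.coe_coe]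
      rw [← MvPolynomial.algebraMap_eq, AlgHom.commutes]
      rfl
    · simp only [chi, RingHom.comp_apply, coe_eval₂RingHom, eval₂_X, RingHom.coe_coe]
      simp
  have h1 := congrArg (fun f : k[X] →+* k[X] => f q) h
  simp only [RingHom.comp_apply, hq, map_zero, RingHom.id_apply] at h1
  exact h1.symm

/-- For `c ≠ 0` and `Q` of positive degree in `F` the automorphism is not exponential. -/
theorem not_exponential (hxy : x ≠ y) (hxz : x ≠ z) (hyz : y ≠ z) {c : ZMod p} (hc : c ≠ 0)
    {Q : k[X][X]} (hQ : Q.natDegree ≠ 0) :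
    ¬ IsExponential (phi p k hxy hxz hyz c Q) := by
  rintro ⟨ε, a, ha, hφ⟩
  have hφ' : ∀ b, Phi p k x y z c Q b = (ε.hom b).eval a := hφ
  have hcomm := hom_comm ε ha hφ'
  have hP0 : P p k x y z c Q ≠ 0 := fun h => hc (P_inj p k hxy hxz hyz h).1
  have hQ0 : Q ≠ 0 := by rintro rfl; simp at hQ
  have hψ0 : psi p k x y z Q ≠ 0 := fun h => hQ0 (psi_inj p k hxy hxz hyz h)
  -- `P` divides the coefficients of `ε P`
  have hU1 : ε.hom (P p k x y z c Q) =
      (ε.hom (MvPolynomial.X y)).map (Phi p k x y z c Q : MvPolynomial σ k →+* MvPolynomial σ k) -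
        ε.hom (MvPolynomial.X y) := by
    rw [← hcomm, Phi_y p k hxy, map_add]
    simp
  have hU2 : ∀ i, P p k x y z c Q ∣ (ε.hom (P p k x y z c Q)).coeff i := by
    intro i
    rw [hU1, coeff_sub, coeff_map]
    exact P_dvd p k hxy hc Q _
  -- hence `P` is invariant
  have hPinv : ε.hom (P p k x y z c Q) = C (P p k x y z c Q) := by
    obtain ⟨d, hd⟩ := hU2 (ε.hom (P p k x y z c Q)).natDegree
    have h1 := hom_leadingCoeff ε (P p k x y z c Q)
    have h2 : (ε.hom (P p k x y z c Q)).leadingCoeff = P p k x y z c Q * d := hd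
    have h0 : (ε.hom (P p k x y z c Q)).leadingCoeff ≠ 0 := by
      rw [Ne, leadingCoeff_eq_zero]
      intro h
      exact hP0 (hom_injective ε (by simpa using h))
    rw [h2] at h1 h0
    exact (natDegree_mul_zero ε (left_ne_zero_of_mul h0) (right_ne_zero_of_mul h0) h1).1
  have hcst : ∀ r : k, ε.hom (MvPolynomial.C r) = C (MvPolynomial.C r) := by
    intro r
    rw [← MvPolynomial.algebraMap_eq, AlgHom.commutes]
    rfl
  -- hence `z` and `Q(z, F)` are invariant
  have hzψ : ε.hom (MvPolynomial.X z * psi p k x y z Q) =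
      C (MvPolynomial.X z * psi p k x y z Q) := by
    have h1 : MvPolynomial.X z * psi p k x y z Q =
        P p k x y z c Q - MvPolynomial.C (io p k c) := by rw [P]; ring
    rw [h1, map_sub, hPinv, hcst, C_sub]
  obtain ⟨hz, hψ⟩ := natDegree_mul_zero ε (MvPolynomial.X_ne_zero z) hψ0 hzψ
  -- hence `F` is invariant
  have hF : ε.hom (F p k x y z) = C (F p k x y z) := by
    have h1 := hom_psi p k (x := x) (y := y) ε hz Q
    rw [hψ] at h1
    have h2 := congrArg natDegree h1
    rw [natDegree_C, natDegree_comp, natDegree_map_eq_of_injective (chi_inj k z)] at h2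
    have h3 : (ε.hom (F p k x y z)).natDegree = 0 := by
      rcases mul_eq_zero.1 h2.symm with h | h
      · exact absurd h hQ
      · exact h
    exact hom_eq_C_of_natDegree ε h3
  -- reduce modulo `z`
  let π : MvPolynomial σ k →+* MvPolynomial σ k := (red k z : MvPolynomial σ k →ₐ[k] MvPolynomial σ k)
  have πz : π (MvPolynomial.X z) = 0 := by simp [π, red]
  have πy : π (MvPolynomial.X y) = MvPolynomial.X y := by simp [π, red, hyz]
  have hF2 := hF
  rw [F, map_sub, map_add, map_mul, map_pow, hz] at hF2
  have hF3 := congrArg (Polynomial.map π) hF2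
  simp only [Polynomial.map_sub, Polynomial.map_add, Polynomial.map_mul, Polynomial.map_pow,
    map_C, map_sub, map_add, map_mul, map_pow, πz, πy, zero_mul, zero_add, C_0] at hF3
  set v : (MvPolynomial σ k)[X] := (ε.hom (MvPolynomial.X y)).map π with hv
  have : CharP (MvPolynomial σ k)[X] p := inferInstance
  have hw : (v - C (MvPolynomial.X y)) ^ p = v - C (MvPolynomial.X y) := by
    rw [sub_pow_char]
    linear_combination hF3
  have hdeg : (v - C (MvPolynomial.X y)).natDegree = 0 := by
    have h1 := congrArg natDegree hw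
    rw [natDegree_pow] at h1
    have h2 := hp.out.two_le
    nlinarith
  have hv2 : v = C (MvPolynomial.X y) := by
    have h1 := eq_C_of_natDegree_eq_zero hdeg
    have h2 : (v - C (MvPolynomial.X y)).coeff 0 = 0 := by
      rw [coeff_sub, coeff_C_zero, hv, coeff_map, ε.coeff_zero, πy, sub_self]
    rw [h2, C_0] at h1
    exact sub_eq_zero.mp h1
  have h4 : π (Phi p k x y z c Q (MvPolynomial.X y)) = MvPolynomial.X y := by
    rw [hφ', ← eval₂_at_apply, ← eval_map, ← hv, hv2, eval_C]
  rw [Phi_y p k hxy, map_add, πy] at h4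
  have h5 : π (P p k x y z c Q) = MvPolynomial.C (io p k c) := red_P p k c Q
  rw [h5] at h4
  exact hc (io_inj p k (σ := σ) (left_eq_add.1 h4.symm))

end

end Pool.Agent.Y34.EX
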